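import Pool.Agent.helper48.AN.SpecD

/-!
# Project an, module DA: Hasse derivatives
-/

namespace AN

open scoped Classical
open MvPowerSeries (constantCoeff coeff)

noncomputable section

theorem DA_ch1 (r : ℤ) (j : ℕ) :
    (r - j) * Ring.choose r j = (j + 1) * Ring.choose r (j + 1) := by
  have h1 := Ring.descPochhammer_eq_factorial_smul_choose r j
  have h2 := Ring.descPochhammer_eq_factorial_smul_choose r (j + 1)
  rw [descPochhammer_succ_right, Polynomial.smeval_mul, h1] at h2
  have h3 : (Polynomial.X - (j : Polynomial ℤ)).smeval r = r - j := by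
    rw [Polynomial.smeval_sub, Polynomial.smeval_X, pow_one, Polynomial.smeval_natCast, pow_zero]
    simp
  rw [h3, Nat.factorial_succ, nsmul_eq_mul, nsmul_eq_mul] at h2
  have h4 : ((j.factorial : ℕ) : ℤ) ≠ 0 := by exact_mod_cast j.factorial_ne_zero
  apply mul_left_cancel₀ h4
  push_cast at h2 ⊢
  linarith

theorem DA_ch2 (r : ℤ) (j : ℕ) :
    (r + 1) * Ring.choose r j = (j + 1) * Ring.choose (r + 1) (j + 1) := by
  rw [Ring.choose_succ_succ, mul_add, ← DA_ch1 r j]
  ring

theorem DA_cf {R : Type} [CommRing R] (j : ℕ) (f : LS R) (n : ℤ) :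
    cf (hD j f) n = ((Ring.choose (n + j) j : ℤ) : R) * cf f (n + j) := rfl

theorem DA_GE {R : Type} [CommRing R] (j : ℕ) (m : ℤ) (f : LS R) (hf : f ∈ GE R m) :
    hD j f ∈ GE R (m - j) := by
  intro n hn
  rw [DA_cf, hf (n + j) (by omega), mul_zero]

theorem DA_natmul {R : Type} [CommRing R] (j : ℕ) (f : LS R) (n : ℤ) :
    cf (((j : LS R) + 1) * f) n = ((j : R) + 1) * cf f n := by
  have : ((j : LS R) + 1) = LS.C ((j : R) + 1) := by simp
  rw [this, cf_C_mul]

theorem DA_mul {R : Type} [CommRing R] (j : ℕ) (f g : LS R) :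
    hD j (f * g) = ∑ q ∈ Finset.HasAntidiagonal.antidiagonal j, hD q.1 f * hD q.2 g := by
  ext n
  obtain ⟨a, ha⟩ := exists_lb f
  obtain ⟨b, hb⟩ := exists_lb g
  have hf : f ∈ GE R a := ha
  have hg : g ∈ GE R b := hb
  rw [DA_cf, cf_mul_finset f g (n + j) hf hg, cf_sum, Finset.mul_sum]
  have h1 : ∀ q ∈ Finset.HasAntidiagonal.antidiagonal j, cf (hD q.1 f * hD q.2 g) n =
      ∑ i ∈ Finset.Icc a (n + j - b), ((Ring.choose i q.1 : ℤ) : R) *
        ((Ring.choose (n + j - i) q.2 : ℤ) : R) * (cf f i * cf g (n + j - i)) := by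
    intro q hq
    have hq' : q.1 + q.2 = j := by simpa using hq
    rw [cf_mul_finset _ _ n (DA_GE q.1 a f hf) (DA_GE q.2 b g hg)]
    refine Finset.sum_bij (fun i _ => i + q.1) ?_ ?_ ?_ ?_
    · intro i hi
      rw [Finset.mem_Icc] at hi ⊢
      omega
    · intro i _ i' _ h
      simpa using h
    · intro i hi
      rw [Finset.mem_Icc] at hi
      exact ⟨i - q.1, by rw [Finset.mem_Icc]; omega, by ring⟩
    · intro i _
      rw [DA_cf, DA_cf, show n - i + (q.2 : ℤ) = n + j - (i + q.1) by omega]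
      ring
  rw [Finset.sum_congr rfl h1, Finset.sum_comm]
  refine Finset.sum_congr rfl fun i _ => ?_
  rw [← Finset.sum_mul]
  congr 1
  have h2 := Ring.add_choose_eq (r := i) (s := n + j - i) j (Commute.all _ _)
  rw [show i + (n + (j : ℤ) - i) = n + j by ring] at h2
  rw [h2]
  push_cast
  rfl

theorem DA : DA_stmt := by
  intro R _
  refine ⟨?_, ?_, ?_, DA_mul, ?_, ?_, DA_GE⟩
  · intro f
    ext n
    rw [DA_cf]
    simp
  · intro j f g
    ext n
    rw [DA_cf, cf_add, cf_add, DA_cf, DA_cf, mul_add]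
  · intro j c f
    ext n
    rw [DA_cf, cf_C_mul, cf_C_mul, DA_cf]
    ring
  · intro j f
    ext n
    rw [DA_natmul, cf_dd, DA_cf, DA_cf]
    have h := DA_ch1 (n + 1 + j) j
    rw [show n + 1 + (j : ℤ) - j = n + 1 by ring] at h
    have h' := congrArg (Int.cast : ℤ → R) h
    rw [show n + ((j + 1 : ℕ) : ℤ) = n + 1 + j by push_cast; ring]
    rw [← mul_assoc, ← mul_assoc]
    congr 1
    push_cast at h' ⊢
    exact h'
  · intro j f
    ext n
    rw [DA_natmul, DA_cf, cf_dd, DA_cf]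
    have h := DA_ch2 (n + j) j
    have h' := congrArg (Int.cast : ℤ → R) h
    rw [show n + ((j + 1 : ℕ) : ℤ) = n + j + 1 by push_cast; ring]
    rw [← mul_assoc, ← mul_assoc]
    congr 1
    push_cast at h' ⊢
    rw [mul_comm]
    exact h'

end

end AN
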